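import Mathlib

set_option autoImplicit false

namespace Pool.Agent.Results.MP_024e1e_ag.BFour

open MvPolynomial SimpleGraph

/-- The Lovasz-Saks-Schrijver ideal of a graph G in dimension d. -/
noncomputable def lss (k : Type) [Field k] {V : Type} (G : SimpleGraph V) (d : ℕ) :
    Ideal (MvPolynomial (V × Fin d) k) :=
  Ideal.span {f | ∃ i l : V, G.Adj i l ∧ f = ∑ j : Fin d, X (i, j) * X (l, j)}

/-- index of a vertex -/
def idx : Fin 5 ⊕ Fin 5 → Fin 5 := Sum.elim id id

/-- K44 minus a perfect matching, plus two isolated vertices -/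
def B4 : SimpleGraph (Fin 5 ⊕ Fin 5) where
  Adj u v := u.isLeft ≠ v.isLeft ∧ idx u ≠ idx v ∧ idx u ≠ 4 ∧ idx v ≠ 4
  symm := ⟨fun u v h => ⟨h.1.symm, h.2.1.symm, h.2.2.2, h.2.2.1⟩⟩
  loopless := ⟨fun u h => h.1 rfl⟩

lemma B4_le : B4 ≤ completeBipartiteGraph (Fin 5) (Fin 5) := by
  rintro (u | u) (v | v) h <;> simp_all [B4]

lemma eq_of_idx {u v : Fin 5 ⊕ Fin 5} (h1 : u.isLeft = v.isLeft) (h2 : idx u = idx v) : u = v := by
  rcases u with u | u <;> rcases v with v | v <;> simp_all [idx]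

lemma no_big (a b : ℕ) (ha : 1 ≤ a) (hb : 1 ≤ b) (hab : 5 ≤ a + b) :
    ¬ (completeBipartiteGraph (Fin a) (Fin b) ⊑ B4) := by
  rintro ⟨f⟩
  have hadj : ∀ (i : Fin a) (j : Fin b), B4.Adj (f (Sum.inl i)) (f (Sum.inr j)) := by
    intro i j
    exact f.toHom.map_adj (by simp)
  let a0 : Fin a := ⟨0, ha⟩
  let b0 : Fin b := ⟨0, hb⟩
  have hne : ∀ x, idx (f x) ≠ 4 := by
    rintro (i | j)
    · exact (hadj i b0).2.2.1
    · exact (hadj a0 j).2.2.2
  have hb2 : ∀ x y z : Bool, x ≠ z → y ≠ z → x = y := by decide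
  have hinj : Function.Injective (fun x => idx (f x)) := by
    rintro (i | j) (i' | j') h
    · exact f.injective (eq_of_idx (hb2 _ _ _ (hadj i b0).1 (hadj i' b0).1) h)
    · exact absurd h (hadj i j').2.1
    · exact absurd h.symm (hadj i' j).2.1
    · exact f.injective (eq_of_idx (hb2 _ _ _ (hadj a0 j).1.symm (hadj a0 j').1.symm) h)
  have hc := Finset.card_le_card_of_injOn (s := Finset.univ) (t := Finset.univ.erase (4 : Fin 5))
    (fun x => idx (f x)) (fun x _ => by simpa using hne x) (fun x _ y _ h => hinj h)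
  simp at hc
  omega

section alg
variable {A : Type} [CommRing A]

def det4 (x : Fin 4 → Fin 4 → A) : A := (Matrix.of x).det

def pm (x : Fin 4 → Fin 4 → A) (i j : Fin 4) : A := x i 0 * x j 1 - x i 1 * x j 0
def qm (y : Fin 4 → Fin 4 → A) (i j : Fin 4) : A := y i 2 * y j 3 - y i 3 * y j 2
def gg (x y : Fin 4 → Fin 4 → A) : A :=
  pm x 0 2 * pm x 1 3 * qm y 0 1 * qm y 2 3 - pm x 0 1 * pm x 2 3 * qm y 0 2 * qm y 1 3

lemma key [IsDomain A] (x y : Fin 4 → Fin 4 → A)
    (h : ∀ i j, i ≠ j → ∑ l, x i l * y j l = 0) : det4 x = 0 ∨ gg x y = 0 := by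
  by_cases hd : det4 x = 0
  · exact Or.inl hd
  right
  let M : Matrix (Fin 4) (Fin 4) A := Matrix.of x
  let d : Fin 4 → A := fun j => ∑ l, x j l * y j l
  have h1 : M * (Matrix.of y).transpose = Matrix.diagonal d := by
    ext i j
    by_cases hij : i = j
    · subst hij; simp [M, d, Matrix.mul_apply]
    · simp [M, Matrix.mul_apply, hij, h i j hij]
  have h2 : ∀ c j, det4 x * y j c = M.adjugate c j * d j := by
    intro c j
    have := congrArg (fun N => (M.adjugate * N) c j) h1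
    simp only [← Matrix.mul_assoc, Matrix.adjugate_mul, Matrix.mul_diagonal] at this
    simpa [det4, M] using this
  have h3 : ∀ i j, det4 x * det4 x * qm y i j = d i * d j *
      (M.adjugate 2 i * M.adjugate 3 j - M.adjugate 3 i * M.adjugate 2 j) := by
    intro i j
    unfold qm
    linear_combination (det4 x * y j 3) * h2 2 i + (M.adjugate 2 i * d i) * h2 3 j
      - (det4 x * y j 2) * h2 3 i - (M.adjugate 3 i * d i) * h2 2 j
  have e01 : M.adjugate 2 0 * M.adjugate 3 1 - M.adjugate 3 0 * M.adjugate 2 1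
      = det4 x * pm x 2 3 := by
    simp [M, det4, pm, Matrix.adjugate_fin_succ_eq_det_submatrix, Matrix.det_succ_row_zero,
      Fin.sum_univ_succ, Fin.succAbove, Matrix.submatrix]
    ring
  have e23 : M.adjugate 2 2 * M.adjugate 3 3 - M.adjugate 3 2 * M.adjugate 2 3
      = det4 x * pm x 0 1 := by
    simp [M, det4, pm, Matrix.adjugate_fin_succ_eq_det_submatrix, Matrix.det_succ_row_zero,
      Fin.sum_univ_succ, Fin.succAbove, Matrix.submatrix]
    ring
  have e02 : M.adjugate 2 0 * M.adjugate 3 2 - M.adjugate 3 0 * M.adjugate 2 2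
      = - (det4 x * pm x 1 3) := by
    simp [M, det4, pm, Matrix.adjugate_fin_succ_eq_det_submatrix, Matrix.det_succ_row_zero,
      Fin.sum_univ_succ, Fin.succAbove, Matrix.submatrix]
    ring
  have e13 : M.adjugate 2 1 * M.adjugate 3 3 - M.adjugate 3 1 * M.adjugate 2 3
      = - (det4 x * pm x 0 2) := by
    simp [M, det4, pm, Matrix.adjugate_fin_succ_eq_det_submatrix, Matrix.det_succ_row_zero,
      Fin.sum_univ_succ, Fin.succAbove, Matrix.submatrix]
    ring
  have f01 : det4 x * qm y 0 1 = d 0 * d 1 * pm x 2 3 := by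
    apply mul_left_cancel₀ hd
    linear_combination h3 0 1 + d 0 * d 1 * e01
  have f23 : det4 x * qm y 2 3 = d 2 * d 3 * pm x 0 1 := by
    apply mul_left_cancel₀ hd
    linear_combination h3 2 3 + d 2 * d 3 * e23
  have f02 : det4 x * qm y 0 2 = - (d 0 * d 2 * pm x 1 3) := by
    apply mul_left_cancel₀ hd
    linear_combination h3 0 2 + d 0 * d 2 * e02
  have f13 : det4 x * qm y 1 3 = - (d 1 * d 3 * pm x 0 2) := by
    apply mul_left_cancel₀ hd
    linear_combination h3 1 3 + d 1 * d 3 * e13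
  have : det4 x * (det4 x * gg x y) = 0 := by
    unfold gg
    linear_combination (pm x 0 2 * pm x 1 3 * (det4 x * qm y 2 3)) * f01
      + (pm x 0 2 * pm x 1 3 * (d 0 * d 1 * pm x 2 3)) * f23
      - (pm x 0 1 * pm x 2 3 * (det4 x * qm y 1 3)) * f02
      + (pm x 0 1 * pm x 2 3 * (d 0 * d 2 * pm x 1 3)) * f13
  simpa [hd] using this

lemma map_det4 {B : Type} [CommRing B] (φ : A →+* B) (x : Fin 4 → Fin 4 → A) :
    φ (det4 x) = det4 (fun i j => φ (x i j)) := by
  unfold det4
  rw [RingHom.map_det]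
  rfl

lemma map_gg {B : Type} [CommRing B] (φ : A →+* B) (x y : Fin 4 → Fin 4 → A) :
    φ (gg x y) = gg (fun i j => φ (x i j)) (fun i j => φ (y i j)) := by
  simp [gg, pm, qm]

end alg

lemma ev_zero (k : Type) [Field k] (p : (Fin 5 ⊕ Fin 5) × Fin 4 → k)
    (hp : ∀ i l, B4.Adj i l → ∑ j : Fin 4, p (i, j) * p (l, j) = 0)
    (f : MvPolynomial ((Fin 5 ⊕ Fin 5) × Fin 4) k) (hf : f ∈ lss k B4 4) : eval p f = 0 := by
  have : lss k B4 4 ≤ RingHom.ker (eval p) := by
    rw [lss, Ideal.span_le]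
    rintro _ ⟨i, l, h, rfl⟩
    simpa [RingHom.mem_ker] using hp i l h
  exact this hf

lemma not_prime (k : Type) [Field k] : ¬ (lss k B4 4).IsPrime := by
  intro hP
  let xx : Fin 4 → Fin 4 → MvPolynomial ((Fin 5 ⊕ Fin 5) × Fin 4) k :=
    fun i j => X (Sum.inl i.castSucc, j)
  let yy : Fin 4 → Fin 4 → MvPolynomial ((Fin 5 ⊕ Fin 5) × Fin 4) k :=
    fun i j => X (Sum.inr i.castSucc, j)
  let π := Ideal.Quotient.mk (lss k B4 4)
  have hk := key (fun i j => π (xx i j)) (fun i j => π (yy i j)) (by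
    intro i j hij
    simp only [← map_mul, ← map_sum]
    apply Ideal.Quotient.eq_zero_iff_mem.2
    apply Ideal.subset_span
    refine ⟨Sum.inl i.castSucc, Sum.inr j.castSucc, ?_, rfl⟩
    refine ⟨by simp, ?_, ?_, ?_⟩
    · simpa [idx] using hij
    · exact (Fin.castSucc_lt_last i).ne
    · exact (Fin.castSucc_lt_last j).ne)
  rw [← map_det4, ← map_gg, Ideal.Quotient.eq_zero_iff_mem, Ideal.Quotient.eq_zero_iff_mem] at hk
  rcases hk with hk | hk
  · have := ev_zero k (fun v => match v.1 with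
      | Sum.inl i => if i = v.2.castSucc then 1 else 0
      | Sum.inr _ => 0) (by
        rintro (i | i) (l | l) h
        · exact absurd rfl h.1
        · simp
        · simp
        · simp) _ hk
    rw [map_det4] at this
    simp only [xx, eval_X, Fin.castSucc_inj, det4] at this
    have h1 : (Matrix.of fun i j : Fin 4 => if i = j then (1 : k) else 0) = 1 := by
      ext i j; simp [Matrix.one_apply]
    rw [h1] at this
    simp at this
  · have := ev_zero k (fun v => match v.1 with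
      | Sum.inl i => ![![1, 0, 0, 0], ![1, 0, 0, 0], ![0, 1, 0, 0], ![0, 1, 0, 0], ![0, 0, 0, 0]] i v.2
      | Sum.inr i => ![![0, 0, 1, 0], ![0, 0, 0, 1], ![0, 0, 1, 0], ![0, 0, 0, 1], ![0, 0, 0, 0]] i v.2)
      (by
        rintro (i | i) (l | l) h
        · exact absurd rfl h.1
        · fin_cases i <;> fin_cases l <;> simp [Fin.sum_univ_succ]
        · fin_cases i <;> fin_cases l <;> simp [Fin.sum_univ_succ]
        · exact absurd rfl h.1) _ hk
    rw [map_gg] at this
    simp [xx, yy, gg, pm, qm] at this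

theorem result (k : Type) [Field k] :
    ∃ (m n : ℕ) (G : SimpleGraph (Fin m ⊕ Fin n)), 2 ≤ m ∧ m ≤ n ∧
      G ≤ completeBipartiteGraph (Fin m) (Fin n) ∧
      (∀ a b : ℕ, 1 ≤ a → 1 ≤ b → m ≤ a + b →
        ¬ (completeBipartiteGraph (Fin a) (Fin b)).IsContained G) ∧
      ¬ (lss k G (m - 1)).IsPrime :=
  ⟨5, 5, B4, by norm_num, le_rfl, B4_le, no_big, not_prime k⟩

end Pool.Agent.Results.MP_024e1e_ag.BFour
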